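import Pool.Agent.W564.SC.Defs

/-! Project SC (helper564), part CF: the family of fibrewise Moebius perturbations. -/

set_option autoImplicit false

open scoped Manifold ContDiff Topology ComplexConjugate
open Filter Set Metric

universe u

namespace Pool.Agent.W320.SC

open Pool.Agent.H718R2.G Pool.Agent.W564.SC

/-! ### algebra -/

theorem rot (ζ : ℂ) :
    Complex.exp (2 * Real.pi * Complex.I * ((Complex.arg ζ / Real.pi : ℝ) : ℂ)) * conj ζ = ζ := by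
  have hpi : (Real.pi : ℂ) ≠ 0 := by exact_mod_cast Real.pi_ne_zero
  have h1 : 2 * (Real.pi : ℂ) * Complex.I * ((Complex.arg ζ / Real.pi : ℝ) : ℂ) =
      (Complex.arg ζ : ℂ) * Complex.I + (Complex.arg ζ : ℂ) * Complex.I := by
    push_cast
    field_simp
    ring
  rw [h1, Complex.exp_add]
  have h2 : conj ζ = (‖ζ‖ : ℂ) * Complex.exp (-((Complex.arg ζ : ℂ) * Complex.I)) := by
    conv_lhs => rw [← Complex.norm_mul_exp_arg_mul_I ζ]
    rw [map_mul, Complex.conj_ofReal, ← Complex.exp_conj, map_mul, Complex.conj_ofReal,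
      Complex.conj_I, mul_neg]
  rw [h2, Complex.exp_neg]
  have h3 : Complex.exp ((Complex.arg ζ : ℂ) * Complex.I) ≠ 0 := Complex.exp_ne_zero _
  conv_rhs => rw [← Complex.norm_mul_exp_arg_mul_I ζ]
  field_simp

/-- the parameters near `(1,0)` -/
def Nr (α β : ℂ) : Prop := ‖α - 1‖ < 1 / 4 ∧ ‖β‖ < 1 / 4

theorem Nr.re {α β : ℂ} (h : Nr α β) {w : ℂ} (hw : ‖w‖ = 1) : 0 < (α + β * conj w).re := by
  have h1 : ‖(α - 1) + β * conj w‖ < 1 / 2 := by
    calc ‖(α - 1) + β * conj w‖ ≤ ‖α - 1‖ + ‖β * conj w‖ := norm_add_le _ _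
      _ = ‖α - 1‖ + ‖β‖ := by rw [norm_mul, Complex.norm_conj, hw, mul_one]
      _ < 1 / 2 := by linarith [h.1, h.2]
  have h2 := (abs_le.1 ((Complex.abs_re_le_norm ((α - 1) + β * conj w)))).1
  have h3 : (α + β * conj w).re = ((α - 1) + β * conj w).re + 1 := by
    simp only [Complex.add_re, Complex.sub_re, Complex.one_re]
    ring
  rw [h3]
  linarith

theorem Nr.slit {α β : ℂ} (h : Nr α β) {w : ℂ} (hw : ‖w‖ = 1) :
    α + β * conj w ∈ Complex.slitPlane := Or.inl (h.re hw)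

theorem Nr.flip {α β : ℂ} (h : Nr α β) : Nr (conj α) (-β) := by
  refine ⟨?_, by rw [norm_neg]; exact h.2⟩
  have : conj α - 1 = conj (α - 1) := by rw [map_sub, map_one]
  rw [this, Complex.norm_conj]
  exact h.1

theorem Nr.lt {α β : ℂ} (h : Nr α β) : ‖β‖ < ‖α‖ := by
  have h1 : ‖(1 : ℂ)‖ ≤ ‖α‖ + ‖α - 1‖ := by
    have : (1 : ℂ) = α - (α - 1) := by ring
    calc ‖(1 : ℂ)‖ = ‖α - (α - 1)‖ := by rw [← this]
      _ ≤ _ := norm_sub_le _ _
  rw [norm_one] at h1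
  linarith [h.1, h.2]

/-- the angle -/
noncomputable def ang (α β w : ℂ) : ℝ := Complex.arg (α + β * conj w) / Real.pi

/-- the rotated point -/
noncomputable def mv (α β w : ℂ) : ℂ :=
  Complex.exp (2 * Real.pi * Complex.I * (ang α β w : ℂ)) * w

theorem opp {α β : ℂ} (h : Nr α β) {w : ℂ} (hw : ‖w‖ = 1) :
    ang (conj α) (-β) (mv α β w) + ang α β w = 0 := by
  set ζ : ℂ := α + β * conj w with hζ
  set E : ℂ := Complex.exp (2 * Real.pi * Complex.I * ((Complex.arg ζ / Real.pi : ℝ) : ℂ)) with hE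
  have hre : 0 < ζ.re := h.re hw
  have hζ0 : ζ ≠ 0 := by
    intro h0
    rw [h0] at hre
    simp at hre
  have e1 : E * conj ζ = ζ := rot ζ
  have e2 : conj E * ζ = conj ζ := by
    have := congrArg conj e1
    rwa [map_mul, Complex.conj_conj] at this
  have e3 : mv α β w = E * w := rfl
  have hww : w * conj w = 1 := by
    rw [Complex.mul_conj, Complex.normSq_eq_norm_sq, hw]
    simp
  have hc : 0 < ‖α‖ ^ 2 - ‖β‖ ^ 2 := by
    have h1 := h.lt
    have h2 := norm_nonneg β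
    nlinarith
  have e4 : ζ * (conj α + -β * conj (mv α β w)) = ((‖α‖ ^ 2 - ‖β‖ ^ 2 : ℝ) : ℂ) := by
    have h1 : ζ * (conj α + -β * conj (mv α β w)) = ζ * conj α - β * conj w * (conj E * ζ) := by
      rw [e3, map_mul]
      ring
    rw [h1, e2, hζ, map_add, map_mul, Complex.conj_conj]
    have h2 : α * conj α = ((‖α‖ ^ 2 : ℝ) : ℂ) := by
      rw [Complex.mul_conj, Complex.normSq_eq_norm_sq]
    have h3 : β * conj β = ((‖β‖ ^ 2 : ℝ) : ℂ) := by
      rw [Complex.mul_conj, Complex.normSq_eq_norm_sq]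
    push_cast at h2 h3 ⊢
    rw [← h2, ← h3]
    linear_combination (-β * conj β) * hww
  have e5 : conj α + -β * conj (mv α β w) = ((‖α‖ ^ 2 - ‖β‖ ^ 2 : ℝ) : ℂ) * ζ⁻¹ := by
    rw [← e4]
    field_simp
  have hpi : Complex.arg ζ ≠ Real.pi := by
    intro h0
    have := Complex.arg_eq_pi_iff.1 h0
    linarith [this.1]
  unfold ang
  rw [e5, Complex.arg_real_mul _ hc, Complex.arg_inv, if_neg hpi, ← hζ]
  ring

theorem norm_mv {α β w : ℂ} (hw : ‖w‖ = 1) : ‖mv α β w‖ = 1 := by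
  have : 2 * (Real.pi : ℂ) * Complex.I * (ang α β w : ℂ) =
      ((2 * Real.pi * ang α β w : ℝ) : ℂ) * Complex.I := by
    push_cast
    ring
  rw [mv, norm_mul, hw, mul_one, this, Complex.norm_exp_ofReal_mul_I]

/-! ### smoothness -/

/-- the angle as a vector -/
noncomputable def gv (q : (ℂ × ℂ) × ℂ) : V 1 := EuclideanSpace.single 0 (ang q.1.1 q.1.2 q.2)

theorem gv_smooth {q : (ℂ × ℂ) × ℂ} (h : q.1.1 + q.1.2 * conj q.2 ∈ Complex.slitPlane) :
    ContDiffAt ℝ ∞ gv q := by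
  have h1 : ContDiffAt ℝ ∞ Complex.arg (q.1.1 + q.1.2 * conj q.2) := by
    have h2 : ContDiffAt ℝ ∞ (fun x => Complex.imCLM (Complex.log x)) (q.1.1 + q.1.2 * conj q.2) :=
      Complex.imCLM.contDiff.contDiffAt.comp _ ((Complex.contDiffAt_log h).restrict_scalars ℝ)
    refine h2.congr_of_eventuallyEq (Eventually.of_forall fun x => ?_)
    show Complex.arg x = (Complex.log x).im
    rw [Complex.log_im]
  have h3 : ContDiff ℝ ∞ (fun q : (ℂ × ℂ) × ℂ => q.1.1 + q.1.2 * conj q.2) := by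
    have hc : ContDiff ℝ ∞ (fun w : ℂ => conj w) := Complex.conjCLE.contDiff
    exact contDiff_fst.fst.add (contDiff_fst.snd.mul (hc.comp contDiff_snd))
  have h4 : ContDiffAt ℝ ∞ (fun q : (ℂ × ℂ) × ℂ => ang q.1.1 q.1.2 q.2) q := by
    have := (ContDiffAt.comp q h1 h3.contDiffAt).div_const Real.pi
    exact this
  have h5 : ContDiff ℝ ∞ (fun t : ℝ => (EuclideanSpace.single 0 t : V 1)) := by
    rw [contDiff_euclidean]
    intro i
    have : (fun t : ℝ => (EuclideanSpace.single 0 t : V 1) i) = fun t => t := by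
      funext t
      have hi : i = 0 := Subsingleton.elim _ _
      rw [hi]
      simp
    rw [this]
    exact contDiff_id
  exact ContDiffAt.comp q h5.contDiffAt h4

section
variable {n : ℕ} {N : Type u} [TopologicalSpace N] [ChartedSpace (V n) N]
  {R : V 1 → N → N} {a : N → ℂ}

/-- the rotation by the angle -/
noncomputable def Gm (R : V 1 → N → N) (a : N → ℂ) (q : (ℂ × ℂ) × N) : N :=
  R (gv (q.1, a q.2)) q.2

theorem Gm_smooth (hR : FreeTorus 1 n N R) (ha : ContMDiff (𝓡 n) 𝓘(ℝ, ℂ) ∞ a)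
    {q : (ℂ × ℂ) × N} (h : q.1.1 + q.1.2 * conj (a q.2) ∈ Complex.slitPlane) :
    ContMDiffAt (𝓘(ℝ, ℂ × ℂ).prod (𝓡 n)) (𝓡 n) ∞ (Gm R a) q := by
  have h1 : ContMDiffAt (𝓘(ℝ, ℂ × ℂ).prod (𝓡 n)) 𝓘(ℝ, (ℂ × ℂ) × ℂ) ∞
      (fun q : (ℂ × ℂ) × N => (q.1, a q.2)) q :=
    ContMDiffAt.prodMk_space contMDiffAt_fst (ha.contMDiffAt.comp q contMDiffAt_snd)
  have h0 : ContDiffAt ℝ ∞ gv ((fun q : (ℂ × ℂ) × N => (q.1, a q.2)) q) := gv_smooth h
  have h2 : ContMDiffAt (𝓘(ℝ, ℂ × ℂ).prod (𝓡 n)) (𝓡 1) ∞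
      (fun q : (ℂ × ℂ) × N => gv (q.1, a q.2)) q :=
    ContDiffAt.comp_contMDiffAt (g := gv) (f := fun q : (ℂ × ℂ) × N => (q.1, a q.2)) h0 h1
  have h3 : ContMDiffAt (𝓘(ℝ, ℂ × ℂ).prod (𝓡 n)) ((𝓡 1).prod (𝓡 n)) ∞
      (fun q : (ℂ × ℂ) × N => (gv (q.1, a q.2), q.2)) q :=
    h2.prodMk contMDiffAt_snd
  exact (hR.smooth.contMDiffAt (x := (gv (q.1, a q.2), q.2))).comp q h3

theorem Gm_inv (hR : FreeTorus 1 n N R) (ha1 : ∀ y, ‖a y‖ = 1)
    (ha2 : ∀ t y, a (R t y) = Complex.exp (2 * Real.pi * Complex.I * (t 0 : ℝ)) * a y)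
    {α β : ℂ} (h : Nr α β) (y : N) : Gm R a ((conj α, -β), Gm R a ((α, β), y)) = y := by
  have h1 : a (Gm R a ((α, β), y)) = mv α β (a y) := by
    rw [Gm, ha2]
    simp [gv, mv]
  have h2 : Gm R a ((conj α, -β), Gm R a ((α, β), y)) =
      R (gv ((conj α, -β), mv α β (a y))) (R (gv ((α, β), a y)) y) := by
    rw [← h1]
    rfl
  rw [h2, ← hR.add]
  have h3 : gv ((conj α, -β), mv α β (a y)) + gv ((α, β), a y) = 0 := by
    have := opp h (ha1 y)
    rw [gv, gv]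
    ext i
    have hi : i = 0 := Subsingleton.elim _ _
    rw [hi]
    simpa using this
  rw [h3, hR.zero]

end

theorem cf : S_CF.{u} := by
  intro n N _ _ _ _ _ r R hR a ha ha1 ha2 F hF1 hF2
  have hr : ((r : WithTop ℕ∞)) ≤ ∞ := by exact_mod_cast le_top
  -- the diffeomorphisms
  have key : ∀ p : ℂ × ℂ, ∃ G : DiffM n N r, (‖p‖ < 1 / 4 →
      ∀ y, G y = Gm R a ((1 + p.1, p.2), F y)) ∧ (¬ ‖p‖ < 1 / 4 → G = F) := by
    intro p
    by_cases hp : ‖p‖ < 1 / 4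
    · have hN : Nr (1 + p.1) p.2 := by
        refine ⟨?_, ?_⟩
        · rw [add_sub_cancel_left]
          exact lt_of_le_of_lt (norm_fst_le p) hp
        · exact lt_of_le_of_lt (norm_snd_le p) hp
      have hN' := hN.flip
      have s1 : ContMDiff (𝓡 n) (𝓡 n) ∞ (fun y => Gm R a ((1 + p.1, p.2), y)) := by
        intro y
        have := (Gm_smooth hR ha (q := ((1 + p.1, p.2), y)) (hN.slit (ha1 y))).comp y
          ((contMDiffAt_const (c := ((1 + p.1, p.2) : ℂ × ℂ))).prodMk contMDiffAt_id)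
        exact this
      have s2 : ContMDiff (𝓡 n) (𝓡 n) ∞ (fun y => Gm R a ((conj (1 + p.1), -p.2), y)) := by
        intro y
        have := (Gm_smooth hR ha (q := ((conj (1 + p.1), -p.2), y)) (hN'.slit (ha1 y))).comp y
          ((contMDiffAt_const (c := ((conj (1 + p.1), -p.2) : ℂ × ℂ))).prodMk contMDiffAt_id)
        exact this
      have i1 := fun y => Gm_inv hR ha1 ha2 hN y
      have i2 : ∀ y, Gm R a ((1 + p.1, p.2), Gm R a ((conj (1 + p.1), -p.2), y)) = y := by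
        intro y
        have := Gm_inv hR ha1 ha2 hN' y
        rwa [Complex.conj_conj, neg_neg] at this
      let G1 : DiffM n N r :=
        { toFun := fun y => Gm R a ((1 + p.1, p.2), y)
          invFun := fun y => Gm R a ((conj (1 + p.1), -p.2), y)
          left_inv := i1
          right_inv := i2
          contMDiff_toFun := s1.of_le hr
          contMDiff_invFun := s2.of_le hr }
      exact ⟨F.trans G1, fun _ y => rfl, fun h => absurd hp h⟩
    · exact ⟨F, fun h => absurd h hp, fun _ => rfl⟩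
  choose H hH1 hH2 using key
  refine ⟨H, 1 / 4, by norm_num, ?_, ?_, ?_⟩
  · ext y
    rw [hH1 0 (by rw [norm_zero]; norm_num)]
    have : gv (((1 : ℂ) + (0 : ℂ × ℂ).1, (0 : ℂ × ℂ).2), a (F y)) = 0 := by
      rw [gv, ang]
      simp
    rw [Gm, this, hR.zero]
  · intro y
    have hq : Tendsto (fun q : (ℂ × ℂ) × N => ‖q.1‖) (𝓝 ((0 : ℂ × ℂ), y)) (𝓝 ‖(0 : ℂ × ℂ)‖) :=
      (continuous_fst.norm.tendsto _)
    have hev : ∀ᶠ q : (ℂ × ℂ) × N in 𝓝 ((0 : ℂ × ℂ), y), ‖q.1‖ < 1 / 4 :=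
      hq.eventually (gt_mem_nhds (by rw [norm_zero]; norm_num))
    have e1 : (fun q : (ℂ × ℂ) × N => H q.1 q.2) =ᶠ[𝓝 ((0 : ℂ × ℂ), y)]
        (fun q => Gm R a ((1 + q.1.1, q.1.2), F q.2)) := by
      filter_upwards [hev] with q hq
      exact hH1 q.1 hq q.2
    refine ContMDiffAt.congr_of_eventuallyEq ?_ e1
    have s1 : ContMDiffAt (𝓘(ℝ, ℂ × ℂ).prod (𝓡 n)) (𝓘(ℝ, ℂ × ℂ).prod (𝓡 n)) r
        (fun q : (ℂ × ℂ) × N => (((1 + q.1.1, q.1.2) : ℂ × ℂ), F q.2)) ((0 : ℂ × ℂ), y) := by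
      refine ContMDiffAt.prodMk ?_ ?_
      · have hc : ContDiff ℝ r (fun p : ℂ × ℂ => ((1 + p.1, p.2) : ℂ × ℂ)) :=
          (contDiff_const.add contDiff_fst).prodMk contDiff_snd
        exact hc.contDiffAt.comp_contMDiffAt contMDiffAt_fst
      · exact (F.contMDiff.contMDiffAt).comp _ contMDiffAt_snd
    have s2 : ContMDiffAt (𝓘(ℝ, ℂ × ℂ).prod (𝓡 n)) (𝓡 n) r (Gm R a)
        (((1 + (0 : ℂ × ℂ).1, (0 : ℂ × ℂ).2) : ℂ × ℂ), F y) := by
      refine (Gm_smooth hR ha ?_).of_le hr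
      have hN : Nr (1 + (0 : ℂ × ℂ).1) (0 : ℂ × ℂ).2 := by
        constructor <;> simp
      exact hN.slit (ha1 _)
    exact ContMDiffAt.comp ((0 : ℂ × ℂ), y) s2 s1
  · intro p hp y
    rw [hH1 p hp y, Gm, gv, ang, hF2]

end Pool.Agent.W320.SC
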