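import Pool.Agent.W564.SC.Defs2
import Pool.Agent.W923.SC.NBHD

/-!
# Project SC, part NBM: maps which are locally small pushes in finitely many charts stay in a given
neighbourhood (adapted from the part NBHD of helper923)
-/

set_option autoImplicit false

open scoped Manifold ContDiff Topology
open Filter Set Metric

universe u

set_option linter.unusedSectionVars false

namespace Pool.Agent.W320.SC

open Pool.Agent.H718R2.G Pool.Agent.W564.SC Pool.Agent.W923.SC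

section
variable {n : ℕ} {N : Type u} [TopologicalSpace N] [T2Space N] [CompactSpace N]
    [ChartedSpace (V n) N] [IsManifold (𝓡 n) ∞ N]

theorem multi_mono {r : ℕ∞} {A : ℕ} {χs : Fin A → OpenPartialHomeomorph N (V n)} {k k' : ℕ}
    {κ κ' : ℝ} {Θ : DiffM n N r} (h : IsMulti n N r A χs k κ Θ) (hk : k' ≤ k) (hκ : κ ≤ κ') :
    IsMulti n N r A χs k' κ' Θ := by
  intro y
  obtain ⟨b, u, Θ', h1, h2, h3⟩ := h y
  exact ⟨b, u, Θ', small_mono h1 hk hκ, h2, h3⟩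

/-- derivatives in charts depend only on the germ -/
theorem germ {r : ℕ∞} (φ ψ : OpenPartialHomeomorph N (V n)) (Hs Θ Θ' : DiffM n N r) {x : N}
    (hx : x ∈ φ.source) (h : (Θ : N → N) =ᶠ[𝓝 (Hs x)] (Θ' : N → N)) (j : ℕ) :
    iteratedFDeriv ℝ j (ψ ∘ (fun y => Θ (Hs y)) ∘ φ.symm) (φ x) =
      iteratedFDeriv ℝ j (ψ ∘ (fun y => Θ' (Hs y)) ∘ φ.symm) (φ x) := by
  apply Filter.EventuallyEq.eq_of_nhds
  refine Filter.EventuallyEq.iteratedFDeriv (𝕜 := ℝ) ?_ j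
  have h1 : Tendsto (fun v => Hs (φ.symm v)) (𝓝 (φ x)) (𝓝 (Hs x)) := by
    have h2 : ContinuousAt φ.symm (φ x) := φ.continuousAt_symm (φ.map_source hx)
    have h3 : Tendsto φ.symm (𝓝 (φ x)) (𝓝 x) := by
      have := h2.tendsto
      rwa [φ.left_inv hx] at this
    exact (Hs.continuous.tendsto x).comp h3
  filter_upwards [h1.eventually h] with v hv
  show ψ (Θ (Hs (φ.symm v))) = ψ (Θ' (Hs (φ.symm v)))
  rw [hv]

theorem single' (h : S_LOC.{u}) {r : ℕ∞} {P : Type} [NormedAddCommGroup P]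
    [NormedSpace ℝ P] (H : P → DiffM n N r) (hH : IsFam n N r H) (A : ℕ)
    (χs : Fin A → OpenPartialHomeomorph N (V n)) (zs : Fin A → N)
    (hχ : ∀ b, GoodChart n N (χs b) (zs b))
    (D : StrongData n N) (k : ℕ) (f : DiffM n N r) (hk : (k : ℕ∞) ≤ r)
    (hf : ∀ i, ∀ x ∈ D.K i, f x ∈ (D.ψ i).source) (h0 : H 0 ∈ strongNbhd D k f) :
    ∃ κ : ℝ, 0 < κ ∧ ∀ (s : P) (Θ : DiffM n N r), ‖s‖ < κ → IsMulti n N r A χs k κ Θ →
        (H s).trans Θ ∈ strongNbhd D k f := by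
  by_contra hcon
  push Not at hcon
  have hpos : ∀ m : ℕ, (0 : ℝ) < 1 / ((m : ℝ) + 1) := fun m => by positivity
  choose s Θ hs hmul hno using fun m : ℕ => hcon (1 / ((m : ℝ) + 1)) (hpos m)
  have hno' : ∀ m, ∃ i, ∃ x, x ∈ D.K i ∧ ¬ (Θ m (H (s m) x) ∈ (D.ψ i).source ∧ ∀ j : ℕ, j ≤ k →
      ‖iteratedFDeriv ℝ j (D.ψ i ∘ (fun y => Θ m (H (s m) y)) ∘ (D.φ i).symm) (D.φ i x)
        - iteratedFDeriv ℝ j (D.ψ i ∘ f ∘ (D.φ i).symm) (D.φ i x)‖ < D.ε i) := by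
    intro m
    by_contra hc
    push Not at hc
    apply hno m
    intro i x hx
    exact hc i x hx
  choose i x hx hbad using hno'
  -- the local pushes
  choose bb uu ΘΘ hu hΘ hger using fun m : ℕ => hmul m (H (s m) (x m))
  -- the indices can be taken constant
  have hfin : {i | ((D.φ i).source).Nonempty}.Finite := D.lf.finite_nonempty_of_compact
  have hne : ∀ m, ((D.φ (i m)).source).Nonempty := fun m => ⟨x m, D.sub _ (hx m)⟩
  have := hfin.to_subtype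
  obtain ⟨⟨i₀, b₀⟩, hi₀⟩ := Finite.exists_infinite_fiber
    (fun m => ((⟨i m, hne m⟩ : {i | ((D.φ i).source).Nonempty}), bb m))
  have hinf : {m | i m = i₀.1 ∧ bb m = b₀}.Infinite := by
    rw [Set.infinite_coe_iff] at hi₀
    refine hi₀.mono ?_
    intro m hm
    have hm' : ((⟨i m, hne m⟩ : {i | ((D.φ i).source).Nonempty}), bb m) = (i₀, b₀) := hm
    exact ⟨congrArg (fun p => p.1.1) hm', congrArg (fun p => p.2) hm'⟩
  obtain ⟨g₁, hg₁, hi₁⟩ := extraction_of_frequently_atTop (Nat.frequently_atTop_iff_infinite.mpr hinf)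
  have : SecondCountableTopology N := ChartedSpace.secondCountable_of_sigmaCompact (V n) N
  obtain ⟨x₀, g₂, hg₂, hx₀⟩ := CompactSpace.tendsto_subseq (x ∘ g₁)
  set g : ℕ → ℕ := g₁ ∘ g₂ with hg
  have hgm : StrictMono g := hg₁.comp hg₂
  have hgt : Tendsto g atTop atTop := hgm.tendsto_atTop
  have hig : ∀ m, i (g m) = i₀.1 := fun m => (hi₁ _).1
  have hbg : ∀ m, bb (g m) = b₀ := fun m => (hi₁ _).2
  have hxg : Tendsto (fun m => x (g m)) atTop (𝓝 x₀) := hx₀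
  have hxK : ∀ m, x (g m) ∈ D.K i₀.1 := fun m => by
    have := hx (g m)
    rwa [hig m] at this
  have hx₀K : x₀ ∈ D.K i₀.1 :=
    (D.compact i₀.1).isClosed.mem_of_tendsto hxg (Eventually.of_forall hxK)
  have hκ : Tendsto (fun m => 1 / ((g m : ℕ) + 1 : ℝ)) atTop (𝓝 0) :=
    (tendsto_one_div_add_atTop_nhds_zero_nat (𝕜 := ℝ)).comp hgt
  have hs0 : Tendsto (fun m => s (g m)) atTop (𝓝 0) := by
    rw [tendsto_zero_iff_norm_tendsto_zero]
    exact squeeze_zero (fun m => norm_nonneg _) (fun m => (hs (g m)).le) hκ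
  have hpush : ∀ m, IsPush n N r (χs b₀) (uu (g m)) (ΘΘ (g m)) := fun m => by
    have := hΘ (g m)
    rwa [hbg m] at this
  obtain ⟨hsrc, hder⟩ := h n N r P H hH (χs b₀) (zs b₀) (hχ b₀) k hk (D.φ i₀.1) (D.ψ i₀.1)
    (D.φ_mem _) (D.ψ_mem _)
    (fun m => x (g m)) x₀ hxg (D.sub _ hx₀K) (h0 i₀.1 x₀ hx₀K).1 (fun m => s (g m)) hs0
    (fun m => uu (g m)) (fun m => 1 / ((g m : ℕ) + 1 : ℝ)) hκ (fun m => hu (g m))
    (fun m => ΘΘ (g m)) hpush
  obtain ⟨-, hderf⟩ := h n N r P (fun _ => f) (isFam_const f) (χs b₀) (zs b₀) (hχ b₀) k hk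
    (D.φ i₀.1) (D.ψ i₀.1) (D.φ_mem _) (D.ψ_mem _)
    (fun m => x (g m)) x₀ hxg (D.sub _ hx₀K) (hf i₀.1 x₀ hx₀K) (fun _ => 0) tendsto_const_nhds
    (fun _ => 0) (fun _ => 0) tendsto_const_nhds (fun _ => small_zero)
    (fun _ => Diffeomorph.refl (𝓡 n) N r) (fun _ => isPush_refl (χs b₀))
  have hev : ∀ j : ℕ, j ≤ k → ∀ᶠ m in atTop,
      ‖iteratedFDeriv ℝ j (D.ψ i₀.1 ∘ (fun y => ΘΘ (g m) (H (s (g m)) y)) ∘ (D.φ i₀.1).symm)
          (D.φ i₀.1 (x (g m)))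
        - iteratedFDeriv ℝ j (D.ψ i₀.1 ∘ f ∘ (D.φ i₀.1).symm) (D.φ i₀.1 (x (g m)))‖ < D.ε i₀.1 := by
    intro j hj
    have h1 := ((hder j hj).sub (hderf j hj)).norm
    exact h1.eventually (gt_mem_nhds ((h0 i₀.1 x₀ hx₀K).2 j hj))
  have hall : ∀ᶠ m in atTop, ∀ j ∈ Finset.range (k + 1),
      ‖iteratedFDeriv ℝ j (D.ψ i₀.1 ∘ (fun y => ΘΘ (g m) (H (s (g m)) y)) ∘ (D.φ i₀.1).symm)
          (D.φ i₀.1 (x (g m)))
        - iteratedFDeriv ℝ j (D.ψ i₀.1 ∘ f ∘ (D.φ i₀.1).symm) (D.φ i₀.1 (x (g m)))‖ < D.ε i₀.1 := by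
    rw [Finset.eventually_all]
    intro j hj
    exact hev j (Nat.lt_succ_iff.mp (Finset.mem_range.mp hj))
  obtain ⟨m, hm1, hm2⟩ := (hsrc.and hall).exists
  have hb := hbad (g m)
  rw [hig m] at hb
  refine hb ⟨?_, fun j hj => ?_⟩
  · rw [(hger (g m)).eq_of_nhds]
    exact hm1
  · rw [germ (D.φ i₀.1) (D.ψ i₀.1) (H (s (g m))) (Θ (g m)) (ΘΘ (g m)) (D.sub _ (hxK m))
      (hger (g m)) j]
    exact hm2 j (Finset.mem_range.mpr (Nat.lt_succ_iff.mpr hj))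

end

theorem nbm (h : S_LOC.{u}) : S_NBM.{u} := by
  intro n N _ _ _ _ _ r hr P _ _ H hH A χs zs hχ U hU h0
  letI : TopologicalSpace (DiffM n N r) := strongTop n N r
  have hbas := TopologicalSpace.isTopologicalBasis_of_subbasis (t := strongTop n N r) rfl
  obtain ⟨B, ⟨F, ⟨hF1, hF2⟩, rfl⟩, hB1, hB2⟩ := hbas.exists_subset_of_mem_open h0 hU
  have key : ∃ k : ℕ, 1 ≤ k ∧ (k : ℕ∞) ≤ r ∧ ∃ κ : ℝ, 0 < κ ∧
      ∀ (s : P) (Θ : DiffM n N r), ‖s‖ < κ → IsMulti n N r A χs k κ Θ →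
        ∀ S ∈ F, (H s).trans Θ ∈ S := by
    clear hB2 hU h0 U
    induction F, hF1 using Set.Finite.induction_on with
    | empty => exact ⟨1, le_rfl, hr, 1, one_pos, fun _ _ _ _ S hS => hS.elim⟩
    | insert hS hfin ih =>
      rename_i S F
      obtain ⟨k, hk1, hkr, κ, hκ, hk⟩ := ih (fun T hT => hF2 (mem_insert_of_mem _ hT))
        (fun T hT => hB1 T (mem_insert_of_mem _ hT))
      obtain ⟨D, k', f, hk'r, hf, rfl⟩ := hF2 (mem_insert _ _)
      obtain ⟨κ', hκ', hk'⟩ := single' h H hH A χs zs hχ D k' f hk'r hf (hB1 _ (mem_insert _ _))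
      refine ⟨max k k', le_max_of_le_left hk1, ?_, min κ κ', lt_min hκ hκ', ?_⟩
      · rcases max_choice k k' with hm | hm <;> rw [hm] <;> assumption
      · intro s Θ hs hΘ T hT
        rcases hT with rfl | hT
        · exact hk' s Θ (hs.trans_le (min_le_right _ _))
            (multi_mono hΘ (le_max_right _ _) (min_le_right _ _))
        · exact hk s Θ (hs.trans_le (min_le_left _ _))
            (multi_mono hΘ (le_max_left _ _) (min_le_left _ _)) T hT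
  obtain ⟨k, hk1, hkr, κ, hκ, hk⟩ := key
  exact ⟨k, hk1, hkr, κ, hκ, fun s Θ hs hΘ => hB2 (fun S hS => hk s Θ hs hΘ S hS)⟩

end Pool.Agent.W320.SC
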